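import Mathlib
import Pool.Agent.Y267.RS.Stm

/-! Project RS, job RS-C (helper914): the roof function. -/

set_option autoImplicit false

namespace Pool.Agent.Y267.RS

open Set Filter Topology MeasureTheory

noncomputable section

theorem roof_lt {D : ℝ} (h : D < 1 / 4) : r D = 1 / (2 * √D) + 2 * D - 1 / 2 := by
  unfold r; rw [if_pos h]

theorem roof_ge {D : ℝ} (h : ¬ D < 1 / 4) : r D = 1 := by
  unfold r; rw [if_neg h]

theorem sqrt_lt_half {D : ℝ} (h : D < 1 / 4) : √D < 1 / 2 := by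
  rw [Real.sqrt_lt' (by norm_num)]
  linarith

theorem roof_one_le {D : ℝ} (hD : 0 < D) : 1 ≤ r D := by
  by_cases h : D < 1 / 4
  · rw [roof_lt h]
    have hs : 0 < √D := Real.sqrt_pos.2 hD
    have hs2 : √D ^ 2 = D := Real.sq_sqrt hD.le
    have h2 : (0 : ℝ) < 2 * √D := by positivity
    have key : 1 / (2 * √D) + 2 * D - 1 / 2 - 1 = ((√D + 1) * (2 * √D - 1) ^ 2) / (2 * √D) := by
      rw [eq_div_iff h2.ne']
      have e1 : (1 / (2 * √D)) * (2 * √D) = 1 := by field_simp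
      have : (1 / (2 * √D) + 2 * D - 1 / 2 - 1) * (2 * √D) =
        (1 / (2 * √D)) * (2 * √D) + (2 * D - 3 / 2) * (2 * √D) := by ring
      rw [this, e1]
      rw [← hs2, Real.sqrt_sq hs.le]
      ring
    have : 0 ≤ ((√D + 1) * (2 * √D - 1) ^ 2) / (2 * √D) := by positivity
    linarith
  · rw [roof_ge h]

theorem roof_antitone : AntitoneOn r (Ioi 0) := by
  intro a ha b hb hab
  have ha' : 0 < a := ha
  have hb' : 0 < b := hb
  by_cases h : b < 1 / 4
  · have h1 : a < 1 / 4 := lt_of_le_of_lt hab h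
    rw [roof_lt h, roof_lt h1]
    have hs : 0 < √a := Real.sqrt_pos.2 ha'
    have ht : 0 < √b := Real.sqrt_pos.2 hb'
    have hst : √a ≤ √b := Real.sqrt_le_sqrt hab
    have hs2 : √a ^ 2 = a := Real.sq_sqrt ha'.le
    have ht2 : √b ^ 2 = b := Real.sq_sqrt hb'.le
    have hs3 := sqrt_lt_half h1
    have ht3 := sqrt_lt_half h
    have key : (1 / (2 * √a) + 2 * a - 1 / 2) - (1 / (2 * √b) + 2 * b - 1 / 2) =
        ((√b - √a) * (1 - 4 * √a * √b * (√a + √b))) / (2 * √a * √b) := by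
      rw [eq_div_iff (by positivity)]
      have : ((1 / (2 * √a) + 2 * a - 1 / 2) - (1 / (2 * √b) + 2 * b - 1 / 2)) * (2 * √a * √b) =
        (√b * ((2 * √a) * (1 / (2 * √a))) - √a * ((2 * √b) * (1 / (2 * √b)))) +
          2 * (a - b) * (2 * √a * √b) := by ring
      rw [this, mul_one_div_cancel (by positivity), mul_one_div_cancel (by positivity)]
      rw [← hs2, ← ht2]
      rw [Real.sqrt_sq hs.le, Real.sqrt_sq ht.le]
      ring
    have h4 : 4 * √a * √b * (√a + √b) ≤ 1 := by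
      have h5 : √a * √b ≤ 1 / 2 * (1 / 2) := mul_le_mul hs3.le ht3.le ht.le (by norm_num)
      have h6 : √a + √b ≤ 1 := by linarith
      have h7 : (√a * √b) * (√a + √b) ≤ 1 / 2 * (1 / 2) * 1 :=
        mul_le_mul h5 h6 (by positivity) (by norm_num)
      linarith
    have : 0 ≤ ((√b - √a) * (1 - 4 * √a * √b * (√a + √b))) / (2 * √a * √b) := by
      apply div_nonneg _ (by positivity)
      exact mul_nonneg (by linarith) (by linarith)
    linarith
  · rw [roof_ge h]
    exact roof_one_le ha'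

theorem roof_le {D : ℝ} (hD : 0 < D) : r D ≤ 1 / (2 * √D) + 1 := by
  by_cases h : D < 1 / 4
  · rw [roof_lt h]; linarith
  · rw [roof_ge h]
    have : 0 ≤ 1 / (2 * √D) := by positivity
    linarith

theorem roof_lower {D : ℝ} (hD : 0 < D) : 1 / (2 * √D) - 1 / 2 ≤ r D := by
  by_cases h : D < 1 / 4
  · rw [roof_lt h]; linarith
  · rw [roof_ge h]
    have h1 : (1 : ℝ) / 2 ≤ √D := by
      rw [Real.le_sqrt' (by norm_num)]
      push Not at h
      linarith
    have h2 : 1 / (2 * √D) ≤ 1 := by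
      rw [div_le_one (by linarith)]
      linarith
    linarith

/-- C1 -/
theorem c1 : C1Stm :=
  ⟨roof_antitone, fun _ h => roof_one_le h, fun _ h => roof_le h, fun _ h => roof_lower h⟩

theorem roof_measurable : Measurable r := by
  unfold r
  refine Measurable.ite (measurableSet_Iio) ?_ measurable_const
  fun_prop

/-- one singular point -/
def Gg (x : T1) : ℝ := r ‖x‖

/-- one singular point, truncated -/
def Gt (δ : ℝ) (x : T1) : ℝ := r (max ‖x‖ δ)

theorem Gg_measurable : Measurable Gg := roof_measurable.comp measurable_norm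

theorem Gt_measurable (δ : ℝ) : Measurable (Gt δ) :=
  roof_measurable.comp (measurable_norm.max measurable_const)

theorem coe_int (p : ℤ) : ((p : ℝ) : T1) = 0 := by
  rw [AddCircle.coe_eq_zero_iff]
  exact ⟨p, by simp⟩

theorem norm_coe_of {s : ℝ} (h : |s| ≤ 1 / 2) : ‖(s : T1)‖ = |s| := by
  rw [AddCircle.norm_coe_eq_abs_iff (p := (1 : ℝ)) one_ne_zero]
  rw [abs_one]
  exact h

theorem norm_even (p : ℤ) {s : ℝ} (h1 : (p : ℝ) ≤ s) (h2 : s ≤ p + 1 / 2) : ‖(s : T1)‖ = s - p := by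
  have e : (s : T1) = ((s - p : ℝ) : T1) := by
    rw [AddCircle.coe_sub, coe_int, sub_zero]
  have h3 : |s - p| = s - p := abs_of_nonneg (by linarith)
  rw [e, norm_coe_of (by rw [h3]; linarith), h3]

theorem norm_odd (p : ℤ) {s : ℝ} (h1 : (p : ℝ) + 1 / 2 ≤ s) (h2 : s ≤ p + 1) :
    ‖(s : T1)‖ = p + 1 - s := by
  have e : (s : T1) = ((s - ((p + 1 : ℤ) : ℝ) : ℝ) : T1) := by
    rw [AddCircle.coe_sub, coe_int, sub_zero]
  have h3 : |s - ((p + 1 : ℤ) : ℝ)| = p + 1 - s := by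
    push_cast
    rw [abs_of_nonpos (by linarith)]
    ring
  rw [e, norm_coe_of (by rw [h3]; linarith), h3]

theorem Gt_anti {δ : ℝ} (hδ : 0 < δ) {x y : T1} (h : ‖x‖ ≤ ‖y‖) : Gt δ y ≤ Gt δ x :=
  roof_antitone (lt_max_of_lt_right hδ) (lt_max_of_lt_right hδ) (max_le_max_right δ h)

theorem Gt_one_le {δ : ℝ} (hδ : 0 < δ) (x : T1) : 1 ≤ Gt δ x :=
  roof_one_le (lt_max_of_lt_right hδ)

theorem Gt_le {δ : ℝ} (hδ : 0 < δ) (x : T1) : Gt δ x ≤ r δ :=
  roof_antitone hδ (lt_max_of_lt_right hδ) (le_max_right _ _)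

theorem Gt_le_Gg {δ : ℝ} (hδ : 0 < δ) {x : T1} (hx : x ≠ 0) : Gt δ x ≤ Gg x :=
  roof_antitone (norm_pos_iff.2 hx) (lt_max_of_lt_right hδ) (le_max_left _ _)

theorem var_neg (f : ℝ → ℝ) (s : Set ℝ) : eVariationOn (fun x => - f x) s = eVariationOn f s := by
  unfold eVariationOn
  simp only [edist_neg_neg]

theorem var_mono {f : ℝ → ℝ} {a b C : ℝ} (hab : a ≤ b) (h : MonotoneOn f (Icc a b))
    (hC : f b - f a ≤ C) : eVariationOn f (Icc a b) ≤ ENNReal.ofReal C := by
  have h1 := h.eVariationOn_eq (a := a) (b := b) (left_mem_Icc.2 hab) (right_mem_Icc.2 hab)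
  rw [inter_self] at h1
  rw [h1]
  exact ENNReal.ofReal_le_ofReal hC

theorem var_anti {f : ℝ → ℝ} {a b C : ℝ} (hab : a ≤ b) (h : AntitoneOn f (Icc a b))
    (hC : f a - f b ≤ C) : eVariationOn f (Icc a b) ≤ ENNReal.ofReal C := by
  rw [← var_neg]
  refine var_mono hab (fun x hx y hy hxy => neg_le_neg (h hx hy hxy)) ?_
  linarith

theorem var_piece {δ : ℝ} (hδ : 0 < δ) (k : ℤ) {a b : ℝ} (hab : a ≤ b) (ha : (k : ℝ) / 2 ≤ a)
    (hb : b ≤ ((k : ℝ) + 1) / 2) :
    eVariationOn (fun s : ℝ => Gt δ (s : T1)) (Icc a b) ≤ ENNReal.ofReal (r δ) := by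
  have hbd : ∀ x y : ℝ, Gt δ (x : T1) - Gt δ (y : T1) ≤ r δ := by
    intro x y
    have h1 := Gt_one_le hδ (y : T1)
    have h2 := Gt_le hδ (x : T1)
    linarith
  rcases Int.even_or_odd' k with ⟨p, rfl | rfl⟩
  · push_cast at ha hb
    refine var_anti hab ?_ (hbd _ _)
    intro x hx y hy hxy
    apply Gt_anti hδ
    rw [norm_even p (s := x) (by linarith [hx.1]) (by linarith [hx.2]),
      norm_even p (s := y) (by linarith [hy.1]) (by linarith [hy.2])]
    linarith
  · push_cast at ha hb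
    refine var_mono hab ?_ (hbd _ _)
    intro x hx y hy hxy
    apply Gt_anti hδ
    rw [norm_odd p (s := x) (by linarith [hx.1]) (by linarith [hx.2]),
      norm_odd p (s := y) (by linarith [hy.1]) (by linarith [hy.2])]
    linarith

theorem BVc_Gt {δ : ℝ} (hδ : 0 < δ) : BVc (Gt δ) (3 * r δ) := by
  intro y
  set k : ℤ := ⌈2 * y⌉ with hk
  have h1 : 2 * y ≤ k := Int.le_ceil _
  have h2 : (k : ℝ) < 2 * y + 1 := Int.ceil_lt_add_one _
  have hr : 0 ≤ r δ := by linarith [roof_one_le hδ]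
  have e1 := eVariationOn.Icc_add_Icc (fun s : ℝ => Gt δ (s : T1)) (s := univ) (a := y)
    (b := (k : ℝ) / 2) (c := y + 1) (by linarith) (by linarith) (mem_univ _)
  have e2 := eVariationOn.Icc_add_Icc (fun s : ℝ => Gt δ (s : T1)) (s := univ) (a := (k : ℝ) / 2)
    (b := ((k : ℝ) + 1) / 2) (c := y + 1) (by linarith) (by linarith) (mem_univ _)
  simp only [univ_inter] at e1 e2
  rw [← e1, ← e2]
  have p1 := var_piece hδ (k - 1) (a := y) (b := (k : ℝ) / 2) (by linarith)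
    (by push_cast; linarith) (by push_cast; linarith)
  have p2 := var_piece hδ k (a := (k : ℝ) / 2) (b := ((k : ℝ) + 1) / 2) (by linarith) le_rfl le_rfl
  have p3 := var_piece hδ (k + 1) (a := ((k : ℝ) + 1) / 2) (b := y + 1) (by linarith)
    (by push_cast; linarith) (by push_cast; linarith)
  have e3 : ENNReal.ofReal (3 * r δ) =
      ENNReal.ofReal (r δ) + (ENNReal.ofReal (r δ) + ENNReal.ofReal (r δ)) := by
    rw [← ENNReal.ofReal_add hr hr, ← ENNReal.ofReal_add hr (by linarith)]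
    congr 1
    ring
  rw [e3]
  exact add_le_add p1 (add_le_add p2 p3)

theorem Gg_integrable : Integrable Gg (volume : Measure T1) := by
  have hmp := AddCircle.measurePreserving_mk (1 : ℝ) (-(1 / 2))
  rw [← hmp.integrable_comp Gg_measurable.aestronglyMeasurable]
  have hI : IntervalIntegrable (fun s : ℝ => 1 / (2 * √|s|) + 1) volume (-(1 / 2)) (1 / 2) := by
    refine intervalIntegrable_of_even (ha := enorm_ne_top) (hb := enorm_ne_top) ?_ ?_
    · intro x
      rw [abs_neg]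
    · intro x hx
      have h0 : IntervalIntegrable (fun s : ℝ => s ^ (-(1 / 2) : ℝ)) volume 0 x :=
        intervalIntegral.intervalIntegrable_rpow' (by norm_num)
      have h1 := (h0.const_mul (1 / 2)).add (intervalIntegrable_const (μ := volume) (c := (1 : ℝ)))
      refine h1.congr ?_
      intro s hs
      rw [uIoc_of_le hx.le] at hs
      have hs0 : 0 < s := hs.1
      change 1 / 2 * s ^ (-(1 / 2) : ℝ) + 1 = 1 / (2 * √|s|) + 1
      rw [abs_of_pos hs0, Real.rpow_neg hs0.le, ← Real.sqrt_eq_rpow]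
      field_simp
  rw [intervalIntegrable_iff_integrableOn_Ioc_of_le (by norm_num)] at hI
  have e : (-(1 / 2) : ℝ) + 1 = 1 / 2 := by norm_num
  rw [e]
  refine Integrable.mono' hI (Gg_measurable.comp (AddCircle.measurable_mk')).aestronglyMeasurable ?_
  refine (ae_restrict_iff' measurableSet_Ioc).2 (ae_of_all _ fun s hs => ?_)
  have hs1 : |s| ≤ 1 / 2 := abs_le.2 ⟨hs.1.le, hs.2⟩
  simp only [Function.comp, Gg]
  rw [norm_coe_of hs1, Real.norm_eq_abs]
  by_cases h0 : s = 0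
  · subst h0
    rw [abs_zero, roof_lt (by norm_num)]
    norm_num
  · have hp : 0 < |s| := abs_pos.2 h0
    rw [abs_of_nonneg (by linarith [roof_one_le hp])]
    exact roof_le hp

theorem Gt_integrable {δ : ℝ} (hδ : 0 < δ) : Integrable (Gt δ) (volume : Measure T1) := by
  refine Integrable.mono' (integrable_const (r δ)) (Gt_measurable δ).aestronglyMeasurable ?_
  refine ae_of_all _ fun x => ?_
  rw [Real.norm_eq_abs, abs_of_nonneg (by linarith [Gt_one_le hδ x])]
  exact Gt_le hδ x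

theorem vol_one : (volume : Measure T1).real univ = 1 := by
  simp [Measure.real, AddCircle.measure_univ]

theorem tb_eq : tb = 2 * (∫ x : T1, Gg x) - 1 := by
  have h1 : Integrable (fun x : T1 => Gg (x - (be : T1))) volume := Gg_integrable.comp_sub_right _
  have h2 : ∫ x : T1, Gg (x - (be : T1)) = ∫ x : T1, Gg x := integral_sub_right_eq_self _ _
  unfold tb
  have e : ∀ x : T1, R x = Gg x + Gg (x - (be : T1)) - 1 := fun x => rfl
  simp only [e]
  have e1 : ∫ x : T1, (Gg x + Gg (x - (be : T1)) - 1) =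
      (∫ x : T1, (Gg x + Gg (x - (be : T1)))) - ∫ _x : T1, (1 : ℝ) :=
    integral_sub (Gg_integrable.add h1) (integrable_const _)
  have e2 : ∫ x : T1, (Gg x + Gg (x - (be : T1))) = (∫ x : T1, Gg x) + ∫ x : T1, Gg (x - (be : T1)) :=
    integral_add Gg_integrable h1
  rw [e1, e2, h2]
  simp only [integral_const, smul_eq_mul, vol_one]
  ring

theorem ae_ne_zero : ∀ᵐ x : T1, x ≠ 0 := by
  have h1 : (volume : Measure T1) {0} = 0 := by
    have hmp := AddCircle.measurePreserving_mk (1 : ℝ) (-(1 / 2))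
    rw [← hmp.measure_preimage (measurableSet_singleton (0 : T1)).nullMeasurableSet]
    have hc : (((↑) : ℝ → T1) ⁻¹' {0}).Countable := by
      refine (countable_range (fun n : ℤ => (n : ℝ))).mono ?_
      intro s hs
      have hs' : (s : T1) = 0 := hs
      rw [AddCircle.coe_eq_zero_iff] at hs'
      obtain ⟨n, hn⟩ := hs'
      exact ⟨n, by simpa using hn⟩
    have h2 : (volume : Measure ℝ) (((↑) : ℝ → T1) ⁻¹' {0}) = 0 := hc.measure_zero _
    exact le_antisymm ((Measure.restrict_apply_le _ _).trans h2.le) zero_le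
  exact compl_mem_ae_iff.2 h1

theorem int_Gt_le {δ : ℝ} (hδ : 0 < δ) : ∫ x : T1, Gt δ x ≤ ∫ x : T1, Gg x := by
  apply integral_mono_ae (Gt_integrable hδ) Gg_integrable
  filter_upwards [ae_ne_zero] with x hx
  exact Gt_le_Gg hδ hx

theorem int_Gt_tendsto : Tendsto (fun n : ℕ => ∫ x : T1, Gt (1 / ((n : ℝ) + 1)) x) atTop
    (𝓝 (∫ x : T1, Gg x)) := by
  have hpos : ∀ n : ℕ, (0 : ℝ) < 1 / ((n : ℝ) + 1) := fun n => Nat.one_div_pos_of_nat
  refine tendsto_integral_of_dominated_convergence (fun x => |Gg x|)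
    (fun n => (Gt_measurable _).aestronglyMeasurable) Gg_integrable.abs ?_ ?_
  · intro n
    filter_upwards [ae_ne_zero] with x hx
    rw [Real.norm_eq_abs, abs_of_nonneg (by linarith [Gt_one_le (hpos n) x])]
    exact (Gt_le_Gg (hpos n) hx).trans (le_abs_self _)
  · filter_upwards [ae_ne_zero] with x hx
    have hx' : 0 < ‖x‖ := norm_pos_iff.2 hx
    have hev : ∀ᶠ n : ℕ in atTop, 1 / ((n : ℝ) + 1) < ‖x‖ :=
      (tendsto_one_div_add_atTop_nhds_zero_nat (𝕜 := ℝ)).eventually_lt_const hx'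
    refine tendsto_const_nhds.congr' ?_
    filter_upwards [hev] with n hn
    unfold Gt Gg
    rw [max_eq_left hn.le]

theorem sum_Rt {δ : ℝ} (x : T1) (n : ℕ) :
    ∑ t ∈ Finset.range n, Rt δ (rot x t) = ∑ t ∈ Finset.range n, Gt δ (rot x t) +
      ∑ t ∈ Finset.range n, Gt δ (rot (x - (be : T1)) t) - n := by
  have e : ∀ t, Rt δ (rot x t) = Gt δ (rot x t) + Gt δ (rot (x - (be : T1)) t) - 1 := by
    intro t
    have e1 : rot (x - (be : T1)) t = rot x t - (be : T1) := by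
      unfold rot
      abel
    rw [e1]
    rfl
  simp only [e]
  rw [Finset.sum_sub_distrib, Finset.sum_add_distrib]
  simp

/-- C2 -/
theorem c2 (_h1 : B1Stm) (h2 : B2Stm) : C2Stm := by
  intro ε hε
  have hev : ∀ᶠ n : ℕ in atTop, (∫ x : T1, Gg x) - ε / 4 < ∫ x : T1, Gt (1 / ((n : ℝ) + 1)) x :=
    int_Gt_tendsto.eventually_const_lt (by linarith)
  obtain ⟨k, hk⟩ := hev.exists
  have hpos : (0 : ℝ) < 1 / ((k : ℝ) + 1) := Nat.one_div_pos_of_nat
  refine ⟨1 / ((k : ℝ) + 1), hpos, ?_⟩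
  set δ : ℝ := 1 / ((k : ℝ) + 1) with hδ
  have hr : 0 ≤ 3 * r δ := by linarith [roof_one_le hpos]
  obtain ⟨n₀, hn₀⟩ := h2 (Gt δ) (3 * r δ) hr (Gt_measurable δ) (BVc_Gt hpos) (ε / 4) (by linarith)
  refine ⟨n₀, fun n hn x => ?_⟩
  have a1 := (abs_le.1 (hn₀ n hn x)).1
  have a2 := (abs_le.1 (hn₀ n hn (x - (be : T1)))).1
  rw [sum_Rt, tb_eq]
  have hn0 : (0 : ℝ) ≤ n := Nat.cast_nonneg n
  have a3 : (n : ℝ) * ((∫ x : T1, Gg x) - ε / 4) ≤ (n : ℝ) * ∫ x : T1, Gt δ x :=
    mul_le_mul_of_nonneg_left hk.le hn0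
  nlinarith

/-- C3 -/
theorem c3 (h1 : B1Stm) (_h2 : B2Stm) : C3Stm := by
  refine ⟨12, fun j x => ?_⟩
  have hQ1 : (1 : ℝ) ≤ (Q j : ℝ) := by
    have : 1 ≤ Q j := Nat.one_le_two_pow
    exact_mod_cast this
  have hQ : (0 : ℝ) < (Q j : ℝ) := by linarith
  set δ : ℝ := 1 / (4 * (Q j : ℝ)) with hδ
  have hpos : 0 < δ := by positivity
  have hr : 0 ≤ 3 * r δ := by linarith [roof_one_le hpos]
  have hrle : r δ ≤ 2 * √(Q j : ℝ) := by
    have hs : √δ = 1 / (2 * √(Q j : ℝ)) := by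
      rw [hδ, Real.sqrt_div (by norm_num), Real.sqrt_one, Real.sqrt_mul (by norm_num)]
      have : √(4 : ℝ) = 2 := by
        rw [show (4 : ℝ) = 2 ^ 2 by norm_num, Real.sqrt_sq (by norm_num)]
      rw [this]
    have hsq : 1 ≤ √(Q j : ℝ) := by
      rw [Real.one_le_sqrt]
      exact hQ1
    have h3 := roof_le hpos
    have h4 : 1 / (2 * √δ) = √(Q j : ℝ) := by
      rw [hs]
      have : 0 < √(Q j : ℝ) := by linarith
      field_simp
    linarith
  have a1 := (abs_le.1 (h1 (Gt δ) (3 * r δ) hr (Gt_measurable δ) (BVc_Gt hpos) j x)).2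
  have a2 := (abs_le.1 (h1 (Gt δ) (3 * r δ) hr (Gt_measurable δ) (BVc_Gt hpos) j (x - (be : T1)))).2
  rw [sum_Rt, tb_eq]
  have a3 : (Q j : ℝ) * ∫ x : T1, Gt δ x ≤ (Q j : ℝ) * ∫ x : T1, Gg x :=
    mul_le_mul_of_nonneg_left (int_Gt_le hpos) hQ.le
  nlinarith

end

end Pool.Agent.Y267.RS
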